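import Pool.Agent.R290.WaveFinal

/-!
# MP_ba6fcd_an, Q1: a wavelet set with non-separable index that does not tile multiplicatively

`G = ℝ`, `Ω = [3/7,5/7) ∪ [1,2) ∪ [3,24/7) ∪ [40/7,6)` and the index set `𝓑` of all
`(2^(n-1) - 1/2 + m, ± 3·2^n)` with `n, m ∈ ℤ`, which contains `(0, ±3)`.
-/

namespace Pool.Agent.Results.MP_ba6fcd_an.NoMultiplicativeTiling

open MeasureTheory FourierTransform Set
open scoped ENNReal InnerProductSpace

/-- the modulus of an automorphism of `ℝ`: the Lebesgue measure of the image of `[0,1]` -/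
noncomputable def modulus (a : ℝ ≃ₜ+ ℝ) : ℝ := (volume (a '' Icc 0 1)).toReal

/-- `Ω` is a wavelet set in `ℝ` with respect to the set `B` of pairs (translation, dilation):
with `ψ` the inverse Fourier transform of `1_Ω`, the elements
`ψ_{λ,a}(x) = Δ(a)^{1/2} ψ(a(x) - λ)`, `(λ, a) ∈ B`, of `L²(ℝ)` are nonzero, pairwise orthogonal
and span a dense subspace. -/
def IsWaveletSet (Ω : Set ℝ) (B : Set (ℝ × (ℝ ≃ₜ+ ℝ))) : Prop :=
  B.Countable ∧ MeasurableSet Ω ∧ 0 < volume Ω ∧ volume Ω < ⊤ ∧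
  ∃ ψ : Lp (α := ℝ) ℂ 2 volume,
    (𝓕 ψ : Lp (α := ℝ) ℂ 2 volume) =ᵐ[volume] Ω.indicator (fun _ => (1 : ℂ)) ∧
    ∃ Φ : ℝ × (ℝ ≃ₜ+ ℝ) → Lp (α := ℝ) ℂ 2 volume,
      (∀ p ∈ B, Φ p =ᵐ[volume] fun x => ((√(modulus p.2) : ℝ) : ℂ) * ψ (p.2 x - p.1)) ∧
      (∀ p ∈ B, ∀ q ∈ B, p ≠ q → ⟪Φ p, Φ q⟫_ℂ = 0) ∧
      (∀ p ∈ B, Φ p ≠ 0) ∧
      (Submodule.span ℂ (Φ '' B)).topologicalClosure = ⊤

/-- `Ω` tiles multiplicatively by the set `𝓐` of automorphisms -/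
def TilesMul (Ω : Set ℝ) (𝓐 : Set (ℝ ≃ₜ+ ℝ)) : Prop :=
  ∀ᵐ ξ : ℝ, ∑' α : 𝓐, ((α : ℝ ≃ₜ+ ℝ) '' Ω).indicator (fun _ => (1 : ℝ≥0∞)) ξ = 1

/-- the wavelet set -/
def Omega : Set ℝ := Ico (3 / 7) (5 / 7) ∪ Ico 1 2 ∪ Ico 3 (24 / 7) ∪ Ico (40 / 7) 6

/-- the index set: all `(2^(n-1) - 1/2 + m, ± 3·2^n)` with `n, m ∈ ℤ` -/
def Index : Set (ℝ × (ℝ ≃ₜ+ ℝ)) :=
  {p | ∃ n m : ℤ, p.1 = 2 ^ n * (1 / 2) - 1 / 2 + m ∧ (p.2 1 = 3 * 2 ^ n ∨ p.2 1 = -(3 * 2 ^ n))}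

lemma index_eq : Index = range fun i : R290.WaveMain.Idx =>
    (R290.WaveMain.fr (1 / 2) i,
      R290.WaveFinal.mulE (R290.WaveMain.dil 3 i)
        (R290.WaveMain.dil_ne 3 (by norm_num : (0:ℝ) < 3) i)) := by
  ext ⟨x, a⟩
  constructor
  · rintro ⟨n, m, hm, ha⟩
    obtain ⟨b, hb⟩ : ∃ b : Bool, a 1 = R290.WaveMain.sg b * 3 * 2 ^ n := by
      rcases ha with ha | ha
      · refine ⟨true, ?_⟩
        simp only at ha
        rw [ha]; unfold R290.WaveMain.sg; simp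
      · refine ⟨false, ?_⟩
        simp only at ha
        rw [ha]; unfold R290.WaveMain.sg; simp
    refine ⟨(b, n, m), ?_⟩
    apply Prod.ext
    · simp only [R290.WaveMain.fr]
      simp only at hm
      rw [hm]
    · apply R290.WaveFinal.auto_ext
      simp only [R290.WaveFinal.mulE_apply, mul_one, R290.WaveMain.dil]
      rw [hb]
  · rintro ⟨⟨b, n, m⟩, h⟩
    obtain ⟨h1, h2⟩ := Prod.ext_iff.1 h
    simp only at h1 h2
    subst h1 h2
    refine ⟨n, m, ?_, ?_⟩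
    · simp only [R290.WaveMain.fr]
    · simp only [R290.WaveFinal.mulE_apply, mul_one, R290.WaveMain.dil, R290.WaveMain.sg]
      cases b
      · right; simp
      · left; simp

/-- **The claim of Q1 is false.** In `ℝ`, `Ω = [3/7,5/7) ∪ [1,2) ∪ [3,24/7) ∪ [40/7,6)` is a
wavelet set with respect to a set `𝓑` that contains pairs `(0, a)` and all of whose dilations
have modulus different from one, but `Ω` does not tile `ℝ` multiplicatively by any set of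
automorphisms. -/
theorem result : (∀ p ∈ Index, modulus p.2 ≠ 1) ∧ (∃ a : ℝ ≃ₜ+ ℝ, (0, a) ∈ Index) ∧
    IsWaveletSet Omega Index ∧ ∀ 𝓐 : Set (ℝ ≃ₜ+ ℝ), ¬ TilesMul Omega 𝓐 := by
  refine ⟨?_, ?_, ?_, ?_⟩
  · rintro p ⟨n, m, -, h⟩ h1
    unfold modulus at h1
    rw [R290.WaveFinal.auto_mod] at h1
    have h2 : |p.2 1| = 3 * 2 ^ n := by
      have hpos : (0:ℝ) < 3 * 2 ^ n := by positivity
      rcases h with h | h
      · rw [h, abs_of_pos hpos]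
      · rw [h, abs_neg, abs_of_pos hpos]
    rw [h2] at h1
    -- `3 * 2 ^ n = 1` is impossible
    rcases Int.le_total 0 n with h3 | h3
    · obtain ⟨k, rfl⟩ := Int.eq_ofNat_of_zero_le h3
      have h4 : (1:ℝ) ≤ 2 ^ (k : ℤ) := by
        rw [zpow_natCast]
        exact one_le_pow₀ (by norm_num)
      linarith
    · obtain ⟨k, hk⟩ := Int.eq_ofNat_of_zero_le (neg_nonneg.2 h3)
      have h4 : n = -(k : ℤ) := by omega
      rw [h4, zpow_neg, zpow_natCast] at h1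
      have h5 : (3:ℝ) = 2 ^ k := by
        have h6 : (2:ℝ) ^ k ≠ 0 := by positivity
        field_simp at h1
        exact h1
      have h6 : (3:ℕ) = 2 ^ k := by exact_mod_cast h5
      rcases k with _ | k
      · norm_num at h6
      · rw [pow_succ] at h6
        omega
  · refine ⟨R290.WaveFinal.mulE 3 (by norm_num), 0, 0, ?_, Or.inl ?_⟩
    · norm_num
    · simp [R290.WaveFinal.mulE_apply]
  · obtain ⟨h1, h2⟩ := R290.WaveFinal.wavelet (1 / 2) 3 (by norm_num) Index index_eq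
    exact ⟨h1, R290.WaveBasis.Om_meas, R290.WaveMain.Om_vol_pos, R290.WaveMain.Om_vol, h2⟩
  · intro 𝓐 h
    exact R290.WaveFinal.not_tiles 𝓐 h

end Pool.Agent.Results.MP_ba6fcd_an.NoMultiplicativeTiling
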